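import Mathlib
import Pool.Agent.R865.CH.C

/-!
# MP_e13f12_an: no common hypercyclic vector for the affine family `a T + b I` on real spaces

Full answer (the negated form): for every nontrivial real Hausdorff (`T1`) locally convex space
`X`, in particular for every real Fréchet space `X ≠ {0}`, and every continuous linear operator
`T` on `X`, no vector `x` is hypercyclic for all the operators `a T + b I`, `a > 0`, `b ∈ ℝ`.
-/

set_option autoImplicit false

namespace Pool.Agent.Results.MP_e13f12_an.NoCommonAffine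

/-- `x` is a hypercyclic vector of `S`: its orbit `{S ^ n x : n = 0, 1, 2, …}` is dense. -/
def IsHypercyclicVector {X : Type*} [AddCommGroup X] [Module ℝ X] [TopologicalSpace X]
    (S : X →L[ℝ] X) (x : X) : Prop :=
  Dense (Set.range fun n : ℕ => (S : X → X)^[n] x)

theorem result {X : Type*} [AddCommGroup X] [Module ℝ X] [TopologicalSpace X]
    [IsTopologicalAddGroup X] [ContinuousSMul ℝ X] [LocallyConvexSpace ℝ X] [T1Space X]
    [Nontrivial X] (T : X →L[ℝ] X) :
    ¬ ∃ x : X, ∀ a b : ℝ, 0 < a →
      IsHypercyclicVector (a • T + b • ContinuousLinearMap.id ℝ X) x := by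
  rintro ⟨x, hx⟩
  have hx' : ∀ a b : ℝ, 0 < a →
      Dense (Set.range fun n : ℕ => ((a • T + b • (1 : X →L[ℝ] X)) ^ n) x) := by
    intro a b ha
    have h := hx a b ha
    unfold IsHypercyclicVector at h
    convert h using 3
    rw [FunLike.coe_pow_eq_iterate]
    rfl
  have hne : x ≠ 0 := by
    rintro rfl
    have h := hx' 1 0 one_pos
    have h1 : (Set.range fun n : ℕ =>
        (((1 : ℝ) • T + (0 : ℝ) • (1 : X →L[ℝ] X)) ^ n) (0 : X)) ⊆ {0} := by
      rintro _ ⟨n, rfl⟩
      simp
    have h2 : Dense ({0} : Set X) := h.mono h1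
    obtain ⟨y, hy⟩ := exists_ne (0 : X)
    have h3 := h2.closure_eq
    rw [closure_singleton] at h3
    have h4 : y ∈ ({0} : Set X) := by rw [h3]; exact Set.mem_univ y
    exact hy h4
  obtain ⟨φ, hφ⟩ := SeparatingDual.exists_eq_one (R := ℝ) hne
  exact Pool.Agent.R865.CH.main T φ x hφ hx'

end Pool.Agent.Results.MP_e13f12_an.NoCommonAffine
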